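import Mathlib
import Pool.Agent.Q32.RD.Fin
import Pool.Agent.Q98.RD.Kin
import Pool.Agent.Q98.RD.Seq
import Pool.Agent.Q98.RD.Emb
import Pool.Agent.Q98.RD.Rg5
import Pool.Agent.Q98.RD.Cv
import Pool.Agent.Q149.RD.Epu
import Pool.Agent.Q149.RD.Tr
import Pool.Agent.Q149.RD.U0
import Pool.Agent.Q150.RD.Red
import Pool.Agent.Q285.RD.Cg
import Pool.Agent.Q285.RD.Rg1
import Pool.Agent.Q285.RD.X1
set_option autoImplicit false

/-!
# Periodicity for relatively cotorsion modules fails

There is a ring homomorphism `f : R → A` with `A` a projective left `R`-module and an acyclic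
complex of `A/R`-cotorsion left `A`-modules none of whose cocycle modules is `A/R`-cotorsion.
-/

namespace Pool.Agent.Results.MP_d608f2_al.PeriodicityFails

universe u

/-- A left module `F` over a ring `A` is flat: every linear relation `∑ a i • x i = 0` in `F` is a
consequence of relations in `A` (the equational criterion for flatness). -/
def FlatLeft (A : Type u) [Ring A] (F : Type u) [AddCommGroup F] [Module A F] : Prop :=
  ∀ (n : ℕ) (a : Fin n → A) (x : Fin n → F), ∑ i, a i • x i = 0 →
    ∃ (m : ℕ) (b : Fin n → Fin m → A) (y : Fin m → F),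
      (∀ i, x i = ∑ j, b i j • y j) ∧ ∀ j, ∑ i, a i * b i j = 0

/-- The left `A`-module `F`, regarded as a left `R`-module by restriction along `f`, is
projective. -/
def ProjectiveOver {R A : Type u} [Ring R] [Ring A] (f : R →+* A) (F : Type u) [AddCommGroup F]
    [Module A F] : Prop :=
  @Module.Projective R _ F _ (Module.compHom F f)

/-- `Ext¹_A(F, C) = 0`: every short exact sequence `0 → C → E → F → 0` of left `A`-modules
splits. -/
def ExtOneZero (A : Type u) [Ring A] (F C : Type u) [AddCommGroup F] [Module A F]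
    [AddCommGroup C] [Module A C] : Prop :=
  ∀ (E : Type u) [AddCommGroup E] [Module A E] (i : C →ₗ[A] E) (p : E →ₗ[A] F),
    Function.Injective i → LinearMap.range i = LinearMap.ker p → Function.Surjective p →
      ∃ s : F →ₗ[A] E, ∀ x, p (s x) = x

/-- The left `A`-module `C` is `A/R`-cotorsion: `Ext¹_A(F, C) = 0` for every left `A`-module `F`
that is flat over `A` and whose underlying left `R`-module is projective. -/
def RelCotorsion {R A : Type u} [Ring R] [Ring A] (f : R →+* A) (C : Type u) [AddCommGroup C]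
    [Module A C] : Prop :=
  ∀ (F : Type u) [AddCommGroup F] [Module A F], FlatLeft A F → ProjectiveOver f F →
    ExtOneZero A F C

theorem ext_iff_spl (A : Type u) [Ring A] (F C : Type u) [AddCommGroup F] [Module A F]
    [AddCommGroup C] [Module A C] : ExtOneZero A F C ↔ Q32.RD.Spl A F C := by
  constructor
  · intro h E _ _ i p hi hp hip
    obtain ⟨s, hs⟩ := h E i p hi hip hp
    have hmem : ∀ x : E, x - s (p x) ∈ LinearMap.range i := by
      intro x
      rw [hip]
      simp [hs]
    let e := LinearEquiv.ofInjective i hi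
    refine ⟨e.symm.toLinearMap ∘ₗ
      ((LinearMap.id - s ∘ₗ p : E →ₗ[A] E).codRestrict (LinearMap.range i) hmem), fun c => ?_⟩
    have hpc : p (i c) = 0 := by
      have : i c ∈ LinearMap.ker p := hip ▸ ⟨c, rfl⟩
      exact this
    have h1 : (LinearMap.id - s ∘ₗ p : E →ₗ[A] E).codRestrict (LinearMap.range i) hmem (i c) =
        e c := by
      apply Subtype.ext
      simp [hpc, e]
    simp only [LinearMap.comp_apply, LinearEquiv.coe_coe]
    rw [h1, LinearEquiv.symm_apply_apply]
  · intro h E _ _ i p hi hip hp
    obtain ⟨r, hr⟩ := h E i p hi hp hip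
    choose g hg using hp
    have key : ∀ x y : E, p x = p y → x - i (r x) = y - i (r y) := by
      intro x y hxy
      have : x - y ∈ LinearMap.range i := by
        rw [hip, LinearMap.mem_ker, map_sub, hxy, sub_self]
      obtain ⟨c, hc⟩ := this
      have h2 : r x - r y = c := by rw [← map_sub, ← hc, hr]
      have h3 : i (r x) - i (r y) = x - y := by rw [← map_sub, h2, hc]
      have h4 : x - i (r x) - (y - i (r y)) = 0 := by
        rw [sub_sub_sub_comm, h3, sub_self]
      exact sub_eq_zero.1 h4
    refine ⟨{ toFun := fun x => g x - i (r (g x)), map_add' := ?_, map_smul' := ?_ }, ?_⟩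
    · intro x y
      have := key (g (x + y)) (g x + g y) (by rw [hg, map_add, hg, hg])
      rw [this, map_add, map_add]
      abel
    · intro a x
      have := key (g (a • x)) (a • g x) (by rw [hg, map_smul, hg])
      rw [this, map_smul, map_smul, RingHom.id_apply, smul_sub]
    · intro x
      have h5 : p (i (r (g x))) = 0 := by
        have : i (r (g x)) ∈ LinearMap.ker p := hip ▸ ⟨_, rfl⟩
        exact this
      show p (g x - i (r (g x))) = x
      rw [map_sub, hg, h5, sub_zero]

theorem relCotorsion_iff {R A : Type u} [Ring R] [Ring A] (f : R →+* A) (C : Type u)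
    [AddCommGroup C] [Module A C] : RelCotorsion f C ↔ Q32.RD.RCot f C := by
  constructor
  · intro h F _ _ h1 h2
    exact (ext_iff_spl A F C).1 (h F h1 h2)
  · intro h F _ _ h1 h2
    exact (ext_iff_spl A F C).2 (h F h1 h2)

/-- There are a ring homomorphism `f : R → A` with `A` projective as a left `R`-module and an
acyclic complex `C` of `A/R`-cotorsion left `A`-modules, no cocycle module of which is
`A/R`-cotorsion. -/
theorem result :
    ∃ (R A : Type u) (_ : Ring R) (_ : Ring A) (f : R →+* A), ProjectiveOver f A ∧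
      ∃ (C : ℤ → Type u) (_ : ∀ n, AddCommGroup (C n)) (_ : ∀ n, Module A (C n))
        (d : ∀ n, C n →ₗ[A] C (n + 1)),
        (∀ n, LinearMap.range (d n) = LinearMap.ker (d (n + 1))) ∧
        (∀ n, RelCotorsion f (C n)) ∧ ∀ n, ¬ RelCotorsion f (LinearMap.ker (d n)) := by
  obtain ⟨V, A, _, _, f, hA, N, _, _, δ, hδ, hN, hZ⟩ :=
    Q32.RD.fin Q285.RD.x1 Q150.RD.red Q285.RD.rg1 (Q149.RD.epu (Q32.RD.bg Q285.RD.cg))
      Q149.RD.tr Q98.RD.np Q98.RD.kin Q149.RD.u0 Q98.RD.seq Q98.RD.rg5 Q98.RD.emb Q98.RD.cv
  exact ⟨V, A, inferInstance, inferInstance, f, hA, fun _ => N, fun _ => inferInstance,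
    fun _ => inferInstance, fun _ => δ, fun _ => hδ, fun _ => (relCotorsion_iff f N).2 hN,
    fun _ h => hZ ((relCotorsion_iff f _).1 h)⟩

end Pool.Agent.Results.MP_d608f2_al.PeriodicityFails
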